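import Pool.Agent.HDZ.Defs

/-!
# Module DUALID: the dual lattice of a scaled ideal lattice comes from a scaled ideal lattice

PAPER PROOF. Let `𝔇 = differentIdeal ℤ (𝓞 K)`, `c0 = (ClassGroup.mk0 𝔇)⁻¹`. Given `J`, put
`n = absNorm (J 𝔇)` (a positive integer, `(n : 𝓞 K) ∈ J 𝔇`, `Ideal.absNorm_mem`), and let `J'` be the integral
ideal with `J' * (J * 𝔇) = (n)` (it exists because `J 𝔇 ∣ (n)`). Then `mk0 J' * mk0 J = (mk0 𝔇)⁻¹ = c0`, and
`N J' * N J * |discr K| = n ^ m` as `N 𝔇 = |discr K|` (`NumberField.absNorm_differentIdeal`).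

Let `t`, `ξ ≠ 0` in the Euclidean mixed space with `⟪ξ, sg_t x⟫ ∈ ℤ` for all `x ∈ J`. The real inner product
of the Euclidean mixed space is `∑_{w real} ξ_w x_w + ∑_{w complex} Re (conj ξ_w * x_w)`. Define
`η_w = ξ_w * s_w` for real `w` and `η_w = conj ξ_w * s_w / 2` for complex `w`, where `s_w = sc K t w > 0`.
Then `⟪ξ, sg_t x⟫ = ∑_{w real} η_w x_w + ∑_{w complex} 2 Re (η_w x_w)`, the trace form. Take a `ℤ`-basis
`(a_i)` of `J` (a `ℚ`-basis of `K`) and its trace dual basis `(a_i*)` in `K`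
(`Algebra.traceForm ℚ K`, `BilinForm.dualBasis`). The vector `η' = ∑ k_i a_i*`, `k_i = ⟪ξ, sg_t a_i⟫ ∈ ℤ`, lies in
the trace dual `{y ∈ K | Tr (y J) ⊆ ℤ} = (J 𝔇)⁻¹` (`FractionalIdeal.dual`, `coeIdeal_differentIdeal`,
`FractionalIdeal.dual_inv` or so), so `y = n η'` lies in `n (J 𝔇)⁻¹ = J'`. The mixed embedding of `η'` has the
same pairing as `η` with the `ℝ`-basis `(a_i)` of the mixed space, and the trace form of the mixed space is
nondegenerate, so `η = mixedEmbedding η'`; in particular `η' ≠ 0` as `ξ ≠ 0`. Finally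
`|sg_{-t} y|_w = n s_w⁻¹ |η|_w = n |ξ|_w / mult w ≤ n |ξ|_w` (`sc K (-t) w = (sc K t w)⁻¹` by `sc_add`), hence
`en (sg_{-t} y) ≤ n ‖ξ‖` (`en_eq`).

Any other route to the statement is welcome.
-/

open scoped NumberField nonZeroDivisors InnerProductSpace
open NumberField NumberField.InfinitePlace NumberField.mixedEmbedding NumberField.Units
  NumberField.Units.dirichletUnitTheorem Pool.ZD

namespace Pool.HDZ

variable (K : Type) [Field K] [NumberField K]

open scoped Classical in
theorem inner_eq (ξ : euclidean.mixedSpace K) (x : mixedSpace K) :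
    ⟪ξ, (euclidean.toMixed K).symm x⟫_ℝ =
      ∑ w, (euclidean.toMixed K ξ).1 w * x.1 w +
        ∑ w, ((starRingEnd ℂ) ((euclidean.toMixed K ξ).2 w) * x.2 w).re := by
  rw [WithLp.prod_inner_apply]
  rw [PiLp.inner_apply, PiLp.inner_apply]
  congr 1
  · refine Finset.sum_congr rfl fun w _ => ?_
    have : ∀ a b : ℝ, ⟪a, b⟫_ℝ = a * b := by
      intro a b; simp [mul_comm]
    exact this _ _
  · refine Finset.sum_congr rfl fun w _ => ?_
    have : ∀ a b : ℂ, ⟪a, b⟫_ℝ = ((starRingEnd ℂ) a * b).re := by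
      intro a b; rw [Complex.inner, mul_comm]
    exact this _ _

/-- The trace pairing of the mixed space. -/
noncomputable def TP (x y : mixedSpace K) : ℝ :=
  open scoped Classical in
  ∑ w, x.1 w * y.1 w + ∑ w, 2 * (x.2 w * y.2 w).re

open scoped Classical in
theorem trace_eq_TP (a b : K) :
    ((Algebra.trace ℚ K (a * b) : ℚ) : ℝ) = TP K (mixedEmbedding K a) (mixedEmbedding K b) := by
  have h1 : (((Algebra.trace ℚ K (a * b) : ℚ) : ℝ) : ℂ) = ∑ φ : K →+* ℂ, φ (a * b) := by
    have := trace_eq_sum_embeddings (K := ℚ) (L := K) (E := ℂ) (x := a * b)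
    rw [eq_ratCast] at this
    rw [Complex.ofReal_ratCast, this]
    rw [← (RingHom.equivRatAlgHom (R := K) (S := ℂ)).sum_comp]
    rfl
  have h2 : ∀ (φ : K →+* ℂ) (w : InfinitePlace K), InfinitePlace.mk φ = w ↔ (φ = embedding w ∨ φ = ComplexEmbedding.conjugate (embedding w)) := by
    intro φ w
    conv_lhs => rw [← mk_embedding w, mk_eq_iff, ComplexEmbedding.conjugate, star_involutive.eq_iff]
  have h3 : ∑ φ : K →+* ℂ, φ (a * b) =
      ∑ w : InfinitePlace K, ∑ φ ∈ Finset.univ.filter (fun φ => InfinitePlace.mk φ = w), φ (a * b) :=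
    (Finset.sum_fiberwise _ _ _).symm
  have h4 : ∀ w : InfinitePlace K, IsReal w →
      ∑ φ ∈ Finset.univ.filter (fun φ => InfinitePlace.mk φ = w), φ (a * b) = embedding w (a * b) := by
    intro w hw
    have : Finset.univ.filter (fun φ : K →+* ℂ => InfinitePlace.mk φ = w) = {embedding w} := by
      ext φ
      simp only [Finset.mem_filter, Finset.mem_univ, true_and, Finset.mem_singleton, h2,
        conjugate_embedding_eq_of_isReal hw, or_self]
    rw [this, Finset.sum_singleton]
  have h5 : ∀ w : InfinitePlace K, IsComplex w →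
      ∑ φ ∈ Finset.univ.filter (fun φ => InfinitePlace.mk φ = w), φ (a * b) =
        ((2 * (embedding w (a * b)).re : ℝ) : ℂ) := by
    intro w hw
    have : Finset.univ.filter (fun φ : K →+* ℂ => InfinitePlace.mk φ = w) =
        {embedding w, ComplexEmbedding.conjugate (embedding w)} := by
      ext φ
      simp only [Finset.mem_filter, Finset.mem_univ, true_and, Finset.mem_insert,
        Finset.mem_singleton, h2]
    rw [this, Finset.sum_pair]
    · rw [ComplexEmbedding.conjugate_coe_eq]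
      rw [Complex.add_conj]
    · intro h
      exact (not_isReal_iff_isComplex.2 hw) (isReal_iff.2 (ComplexEmbedding.isReal_iff.2 h.symm))
  apply Complex.ofReal_injective
  rw [h1, h3, sum_eq_sum_add_sum]
  unfold TP
  rw [Complex.ofReal_add, Complex.ofReal_sum, Complex.ofReal_sum]
  congr 1
  · refine Finset.sum_congr rfl fun w _ => ?_
    rw [h4 w.1 w.2, map_mul, mixedEmbedding_apply_isReal, mixedEmbedding_apply_isReal,
      Complex.ofReal_mul, embedding_of_isReal_apply, embedding_of_isReal_apply]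
  · refine Finset.sum_congr rfl fun w _ => ?_
    rw [h5 w.1 w.2, map_mul, mixedEmbedding_apply_isComplex, mixedEmbedding_apply_isComplex]

theorem TP_add_left (x y z : mixedSpace K) : TP K (x + y) z = TP K x z + TP K y z := by
  unfold TP
  simp only [Prod.fst_add, Prod.snd_add, Pi.add_apply, add_mul, Complex.add_re, mul_add,
    Finset.sum_add_distrib]
  ring

theorem TP_sub_left (x y z : mixedSpace K) : TP K (x - y) z = TP K x z - TP K y z := by
  unfold TP
  simp only [Prod.fst_sub, Prod.snd_sub, Pi.sub_apply, sub_mul, Complex.sub_re, mul_sub,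
    Finset.sum_sub_distrib]
  ring

/-- The trace pairing as a linear map in the second variable. -/
noncomputable def TPl (x : mixedSpace K) : mixedSpace K →ₗ[ℝ] ℝ where
  toFun := TP K x
  map_add' y z := by
    unfold TP
    simp only [Prod.fst_add, Prod.snd_add, Pi.add_apply, mul_add, Complex.add_re,
      Finset.sum_add_distrib]
    ring
  map_smul' c y := by
    unfold TP
    simp only [Prod.smul_fst, Prod.smul_snd, Pi.smul_apply, smul_eq_mul, RingHom.id_apply,
      mul_add, Finset.mul_sum, Complex.real_smul]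
    congr 1
    · refine Finset.sum_congr rfl fun w _ => ?_
      ring
    · refine Finset.sum_congr rfl fun w _ => ?_
      rw [show x.2 w * ((c : ℂ) * y.2 w) = (c : ℂ) * (x.2 w * y.2 w) by ring, Complex.re_ofReal_mul]
      ring

open scoped Classical in
theorem eq_zero_of_TP (x : mixedSpace K) (h : ∀ y, TP K x y = 0) : x = 0 := by
  have h1 := h (x.1, fun w => (starRingEnd ℂ) (x.2 w))
  unfold TP at h1
  simp only [Complex.mul_conj, Complex.ofReal_re] at h1
  have h2 : (∑ w, x.1 w * x.1 w) = 0 ∧ (∑ w, 2 * Complex.normSq (x.2 w)) = 0 := by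
    have a1 : 0 ≤ ∑ w, x.1 w * x.1 w := Finset.sum_nonneg fun w _ => mul_self_nonneg _
    have a2 : 0 ≤ ∑ w, 2 * Complex.normSq (x.2 w) :=
      Finset.sum_nonneg fun w _ => mul_nonneg zero_le_two (Complex.normSq_nonneg _)
    constructor <;> linarith
  refine Prod.ext ?_ ?_
  · funext w
    have := (Finset.sum_eq_zero_iff_of_nonneg (fun w _ => mul_self_nonneg (x.1 w))).1 h2.1 w
      (Finset.mem_univ w)
    simpa using this
  · funext w
    have := (Finset.sum_eq_zero_iff_of_nonneg
      (fun w _ => mul_nonneg zero_le_two (Complex.normSq_nonneg (x.2 w)))).1 h2.2 w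
      (Finset.mem_univ w)
    simpa using this


/-- The vector `η` attached to `ξ`. -/
noncomputable def et (t : logSpace K) (v : mixedSpace K) : mixedSpace K :=
  (fun w => v.1 w * sc K t w.1, fun w => (starRingEnd ℂ) (v.2 w) * (sc K t w.1 : ℂ) / 2)

open scoped Classical in
theorem inner_sg (t : logSpace K) (ξ : euclidean.mixedSpace K) (x : mixedSpace K) :
    ⟪ξ, (euclidean.toMixed K).symm (sg K t * x)⟫_ℝ = TP K (et K t (euclidean.toMixed K ξ)) x := by
  rw [inner_eq]
  unfold TP et sg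
  rw [mixedSpaceOfRealSpace_apply]
  congr 1
  · refine Finset.sum_congr rfl fun w _ => ?_
    simp only [Prod.fst_mul, Pi.mul_apply]
    ring
  · refine Finset.sum_congr rfl fun w _ => ?_
    simp only [Prod.snd_mul, Pi.mul_apply]
    rw [← Complex.re_ofReal_mul]
    congr 1
    push_cast
    ring

theorem normAtPlace_et (t : logSpace K) (v : mixedSpace K) (w : InfinitePlace K) :
    normAtPlace w (et K t v) ≤ sc K t w * normAtPlace w v := by
  have hs := sc_pos K t w
  rcases isReal_or_isComplex w with hw | hw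
  · rw [normAtPlace_apply_of_isReal hw, normAtPlace_apply_of_isReal hw]
    unfold et
    simp only [norm_mul, Real.norm_eq_abs, abs_of_pos hs]
    rw [mul_comm]
  · rw [normAtPlace_apply_of_isComplex hw, normAtPlace_apply_of_isComplex hw]
    unfold et
    simp only [norm_mul, norm_div, Complex.norm_real, Real.norm_eq_abs, abs_of_pos hs,
      RCLike.norm_conj, Complex.norm_ofNat]
    have := norm_nonneg (v.2 ⟨w, hw⟩)
    nlinarith [mul_nonneg this hs.le]

open scoped Classical in
theorem dual_id (K : Type) [Field K] [NumberField K] : ∃ c0 : ClassGroup (𝓞 K),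
    ∀ J : (Ideal (𝓞 K))⁰, ∃ (J' : (Ideal (𝓞 K))⁰) (n : ℕ), 0 < n ∧
      ClassGroup.mk0 J' * ClassGroup.mk0 J = c0 ∧
      nm K J' * nm K J * DK K = (n : ℝ) ^ Module.finrank ℚ K ∧
      ∀ (t : logSpace K) (ξ : euclidean.mixedSpace K), ξ ≠ 0 →
        (∀ x : 𝓞 K, x ∈ (J : Ideal (𝓞 K)) → ∃ k : ℤ,
          ⟪ξ, (euclidean.toMixed K).symm (sg K t * mixedEmbedding K (x : K))⟫_ℝ = k) →
        ∃ y : NZ K J', en K (sg K (-t) * mixedEmbedding K ((y : 𝓞 K) : K)) ≤ n * ‖ξ‖ := by
  have hD : differentIdeal ℤ (𝓞 K) ≠ ⊥ := differentIdeal_ne_bot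
  let D : (Ideal (𝓞 K))⁰ := ⟨differentIdeal ℤ (𝓞 K), mem_nonZeroDivisors_iff_ne_zero.2 hD⟩
  refine ⟨(ClassGroup.mk0 D)⁻¹, fun J => ?_⟩
  have hJ : (J : Ideal (𝓞 K)) ≠ ⊥ := nonZeroDivisors.coe_ne_zero J
  set n := Ideal.absNorm ((J : Ideal (𝓞 K)) * differentIdeal ℤ (𝓞 K)) with hn
  have hn0 : 0 < n := by
    refine Nat.pos_of_ne_zero fun h => ?_
    rw [hn, Ideal.absNorm_eq_zero_iff] at h
    rcases mul_eq_zero.1 h with h | h
    · exact hJ h
    · exact hD h
  have hnK : (n : 𝓞 K) ≠ 0 := Nat.cast_ne_zero.2 hn0.ne'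
  obtain ⟨I, hI⟩ : ((J : Ideal (𝓞 K)) * differentIdeal ℤ (𝓞 K)) ∣ Ideal.span {(n : 𝓞 K)} :=
    Ideal.dvd_span_singleton.2 (Ideal.absNorm_mem _)
  have hI0 : I ≠ ⊥ := by
    rintro rfl
    rw [Ideal.mul_bot, Ideal.span_singleton_eq_bot] at hI
    exact hnK hI
  let J' : (Ideal (𝓞 K))⁰ := ⟨I, mem_nonZeroDivisors_iff_ne_zero.2 hI0⟩
  refine ⟨J', n, hn0, ?_, ?_, ?_⟩
  · rw [eq_inv_iff_mul_eq_one, ← map_mul, ← map_mul]
    have h1 : (((J' * J * D : (Ideal (𝓞 K))⁰)) : Ideal (𝓞 K)) = Ideal.span {(n : 𝓞 K)} := by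
      rw [hI]
      change I * (J : Ideal (𝓞 K)) * differentIdeal ℤ (𝓞 K) = _
      ring
    have h2 : (J' * J * D : (Ideal (𝓞 K))⁰) =
        ⟨((J' * J * D : (Ideal (𝓞 K))⁰) : Ideal (𝓞 K)), (J' * J * D).2⟩ := rfl
    rw [h2, ClassGroup.mk0_eq_one_iff, h1]
    exact ⟨⟨(n : 𝓞 K), rfl⟩⟩
  · unfold nm DK
    have h1 : Ideal.absNorm (I * (J : Ideal (𝓞 K)) * differentIdeal ℤ (𝓞 K)) =
        n ^ Module.finrank ℚ K := by
      rw [show I * (J : Ideal (𝓞 K)) * differentIdeal ℤ (𝓞 K) = Ideal.span {(n : 𝓞 K)} by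
        rw [hI]; ring]
      rw [Ideal.absNorm_span_natCast, RingOfIntegers.rank]
    rw [map_mul, map_mul, absNorm_differentIdeal K] at h1
    have h2 : (((discr K).natAbs : ℕ) : ℝ) = |(discr K : ℝ)| := by
      rw [← Int.cast_abs, Int.abs_eq_natAbs, Int.cast_natCast]
    rw [← h2]
    exact_mod_cast h1
  · intro t ξ hξ hint
    set Ju : (FractionalIdeal (𝓞 K)⁰ K)ˣ := FractionalIdeal.mk0 K J with hJu
    have hJu' : (Ju : FractionalIdeal (𝓞 K)⁰ K) = ((J : Ideal (𝓞 K)) : FractionalIdeal (𝓞 K)⁰ K) :=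
      FractionalIdeal.coe_mk0 _ _
    set b := basisOfFractionalIdeal K Ju with hb
    set v := euclidean.toMixed K ξ with hv
    have hmem : ∀ y : K, y ∈ (Ju : FractionalIdeal (𝓞 K)⁰ K) →
        ∃ x : 𝓞 K, x ∈ (J : Ideal (𝓞 K)) ∧ algebraMap (𝓞 K) K x = y := by
      intro y hy
      rw [hJu', FractionalIdeal.mem_coeIdeal] at hy
      exact hy
    have hk : ∀ i, ∃ k : ℤ, TP K (et K t v) (mixedEmbedding K (b i)) = k := by
      intro i
      have h1 : b i ∈ (Ju : FractionalIdeal (𝓞 K)⁰ K) := by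
        have := (mem_span_basisOfFractionalIdeal (K := K) (I := Ju) (x := b i)).1
          (Submodule.subset_span ⟨i, rfl⟩)
        exact this
      obtain ⟨x, hx, hxb⟩ := hmem _ h1
      obtain ⟨k, hk⟩ := hint x hx
      refine ⟨k, ?_⟩
      rw [inner_sg] at hk
      rw [← hk, ← hxb]
    choose k hk using hk
    set b' := (Algebra.traceForm ℚ K).dualBasis (traceForm_nondegenerate ℚ K) b with hb'
    set η : K := ∑ i, (k i : ℚ) • b' i with hη
    have hη1 : ∀ j, Algebra.trace ℚ K (η * b j) = k j := by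
      intro j
      rw [← Algebra.traceForm_apply, hη, map_sum, LinearMap.sum_apply]
      simp only [map_smul, LinearMap.smul_apply, hb']
      simp only [LinearMap.BilinForm.apply_dualBasis_left]
      simp
    have hη2 : mixedEmbedding K η = et K t v := by
      have h1 : ∀ y, TP K (mixedEmbedding K η - et K t v) y = 0 := by
        have h2 : TPl K (mixedEmbedding K η - et K t v) = 0 := by
          refine (fractionalIdealLatticeBasis K Ju).ext fun i => ?_
          rw [fractionalIdealLatticeBasis_apply]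
          change TP K _ _ = 0
          rw [TP_sub_left, ← trace_eq_TP, ← hb, hη1, hk]
          simp
        intro y
        exact LinearMap.congr_fun h2 y
      exact sub_eq_zero.1 (eq_zero_of_TP K _ h1)
    have hη3 : ∀ a : K, a ∈ (Ju : FractionalIdeal (𝓞 K)⁰ K) →
        ∃ z : ℤ, Algebra.trace ℚ K (η * a) = z := by
      intro a ha
      have ha' : a ∈ Submodule.span ℤ (Set.range b) :=
        (mem_span_basisOfFractionalIdeal (K := K) (I := Ju) (x := a)).2 ha
      refine Submodule.span_induction (p := fun a _ => ∃ z : ℤ, Algebra.trace ℚ K (η * a) = z)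
        ?_ ?_ ?_ ?_ ha'
      · rintro x ⟨i, rfl⟩
        exact ⟨k i, hη1 i⟩
      · exact ⟨0, by simp⟩
      · rintro x y _ _ ⟨z1, h1⟩ ⟨z2, h2⟩
        exact ⟨z1 + z2, by rw [mul_add, map_add, h1, h2]; push_cast; rfl⟩
      · rintro c x _ ⟨z, h1⟩
        refine ⟨c * z, ?_⟩
        rw [mul_smul_comm, map_zsmul, h1]
        push_cast
        simp
    have hη4 : η ∈ FractionalIdeal.dual ℤ ℚ (Ju : FractionalIdeal (𝓞 K)⁰ K) := by
      rw [FractionalIdeal.mem_dual (Units.ne_zero Ju)]
      intro a ha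
      obtain ⟨z, hz⟩ := hη3 a ha
      rw [Algebra.traceForm_apply, hz]
      exact ⟨z, by simp⟩
    have hI' : FractionalIdeal.spanSingleton (𝓞 K)⁰ (n : K) *
        FractionalIdeal.dual ℤ ℚ (Ju : FractionalIdeal (𝓞 K)⁰ K) =
          ((I : Ideal (𝓞 K)) : FractionalIdeal (𝓞 K)⁰ K) := by
      have h1 : FractionalIdeal.spanSingleton (𝓞 K)⁰ (n : K) =
          (((J : Ideal (𝓞 K)) : FractionalIdeal (𝓞 K)⁰ K) *
            (FractionalIdeal.dual ℤ ℚ (1 : FractionalIdeal (𝓞 K)⁰ K))⁻¹) *
            ((I : Ideal (𝓞 K)) : FractionalIdeal (𝓞 K)⁰ K) := by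
        rw [← coeIdeal_differentIdeal ℤ ℚ K (𝓞 K), ← FractionalIdeal.coeIdeal_mul,
          ← FractionalIdeal.coeIdeal_mul, ← hI, FractionalIdeal.coeIdeal_span_singleton]
        simp
      have h2 : FractionalIdeal.dual ℤ ℚ (1 : FractionalIdeal (𝓞 K)⁰ K) ≠ 0 :=
        FractionalIdeal.dual_ne_zero ℤ ℚ one_ne_zero
      have h3 : ((J : Ideal (𝓞 K)) : FractionalIdeal (𝓞 K)⁰ K) ≠ 0 :=
        FractionalIdeal.coeIdeal_ne_zero.2 hJ
      rw [FractionalIdeal.dual_eq_mul_inv, h1, hJu']
      field_simp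
    have hnη : (n : K) * η ∈ ((I : Ideal (𝓞 K)) : FractionalIdeal (𝓞 K)⁰ K) := by
      rw [← hI']
      exact FractionalIdeal.mul_mem_mul (FractionalIdeal.mem_spanSingleton_self _ _) hη4
    rw [FractionalIdeal.mem_coeIdeal] at hnη
    obtain ⟨y, hyI, hy⟩ := hnη
    have hn0K : (n : K) ≠ 0 := Nat.cast_ne_zero.2 hn0.ne'
    have hη0 : η ≠ 0 := by
      intro h
      rw [h, map_zero] at hη2
      have : v = 0 := by
        have hc := fun w => (sc_pos K t w).ne'
        refine Prod.ext ?_ ?_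
        · funext w
          have := congrFun (congrArg Prod.fst hη2) w
          simp only [et, Prod.fst_zero, Pi.zero_apply] at this
          simpa [hc] using this.symm
        · funext w
          have := congrFun (congrArg Prod.snd hη2) w
          simp only [et, Prod.snd_zero, Pi.zero_apply] at this
          simpa [hc] using this.symm
      exact hξ ((euclidean.toMixed K).injective (by rw [← hv, this, map_zero]))
    have hy0 : y ≠ 0 := by
      rintro rfl
      rw [map_zero] at hy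
      rcases mul_eq_zero.1 hy.symm with h | h
      · exact hn0K h
      · exact hη0 h
    refine ⟨⟨y, hyI, hy0⟩, ?_⟩
    have hyv : mixedEmbedding K ((y : 𝓞 K) : K) = (n : ℝ) • et K t v := by
      have : ((y : 𝓞 K) : K) = (n : ℚ) • η := by
        rw [show ((y : 𝓞 K) : K) = algebraMap (𝓞 K) K y from rfl, hy]
        rw [Rat.smul_def]; push_cast; rfl
      rw [this, Rat.smul_def, map_mul, hη2]
      push_cast
      rw [map_natCast, ← nsmul_eq_mul, Nat.cast_smul_eq_nsmul]
    have hbd : ∀ w, normAtPlace w (sg K (-t) * mixedEmbedding K ((y : 𝓞 K) : K)) ≤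
        n * normAtPlace w v := by
      intro w
      rw [normAtPlace_sg_mul, hyv, normAtPlace_smul, abs_of_nonneg (Nat.cast_nonneg n)]
      have h1 : sc K (-t) w * sc K t w = 1 := by
        have h0 : sc K (0 : logSpace K) w = 1 := by
          unfold sc
          split_ifs <;> simp
        rw [← sc_add, neg_add_cancel, h0]
      calc sc K (-t) w * ((n : ℝ) * normAtPlace w (et K t v))
          ≤ sc K (-t) w * ((n : ℝ) * (sc K t w * normAtPlace w v)) := by
            refine mul_le_mul_of_nonneg_left ?_ (sc_pos K _ w).le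
            exact mul_le_mul_of_nonneg_left (normAtPlace_et K t v w) (Nat.cast_nonneg n)
        _ = (sc K (-t) w * sc K t w) * (n * normAtPlace w v) := by ring
        _ = n * normAtPlace w v := by rw [h1, one_mul]
    have hξv : ‖ξ‖ = en K v := by
      rw [en_eq, hv, ContinuousLinearEquiv.symm_apply_apply]
    rw [hξv]
    unfold en
    rw [← Real.sqrt_sq (Nat.cast_nonneg n : (0 : ℝ) ≤ n), ← Real.sqrt_mul (sq_nonneg _),
      Finset.mul_sum]
    refine Real.sqrt_le_sqrt (Finset.sum_le_sum fun w _ => ?_)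
    rw [← mul_pow]
    exact pow_le_pow_left₀ (normAtPlace_nonneg _ _) (hbd w) 2

end Pool.HDZ
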