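import Pool.Agent.HDZ.Defs

/-!
# Module LATBASIS: a basis of the scaled ideal lattice and its covolume

Multiplication by `sg K t` is a linear automorphism of the mixed space (inverse: multiplication by
`sg K (-t)`), of determinant `norm (sg K t) = 1`; apply it and the inverse of `toMixed` to the
basis of the ideal lattice.
-/

open scoped NumberField nonZeroDivisors
open NumberField NumberField.InfinitePlace NumberField.mixedEmbedding NumberField.Units
  NumberField.Units.dirichletUnitTheorem Pool.ZD

namespace Pool.HDZ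

namespace LatBasis

variable (K : Type) [Field K] [NumberField K]

theorem sg_zero : sg K (0 : logSpace K) = 1 := by
  classical
  have h0 : sc K (0 : logSpace K) = fun _ => 1 := by
    funext w
    unfold sc
    split_ifs <;> simp
  unfold sg
  rw [h0, mixedSpaceOfRealSpace_apply]
  refine Prod.ext ?_ ?_
  · funext w
    rfl
  · funext w
    simp

theorem sg_mul_neg (t : logSpace K) : sg K t * sg K (-t) = 1 := by
  rw [← sg_add, add_neg_cancel, sg_zero]

/-- multiplication by `sg K t` -/
noncomputable def mulSg (t : logSpace K) : mixedSpace K ≃ₗ[ℝ] mixedSpace K where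
  toFun x := sg K t * x
  map_add' x y := mul_add _ _ _
  map_smul' c x := by
    simp only [RingHom.id_apply, mul_smul_comm]
  invFun x := sg K (-t) * x
  left_inv x := by
    show sg K (-t) * (sg K t * x) = x
    rw [← mul_assoc, mul_comm (sg K (-t)), sg_mul_neg, one_mul]
  right_inv x := by
    show sg K t * (sg K (-t) * x) = x
    rw [← mul_assoc, sg_mul_neg, one_mul]

open scoped Classical in
theorem det_mulSg (t : logSpace K) : LinearMap.det (mulSg K t : mixedSpace K →ₗ[ℝ] mixedSpace K) = 1 := by
  have h1 : (mulSg K t : mixedSpace K →ₗ[ℝ] mixedSpace K) =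
      LinearMap.prodMap
        (LinearMap.pi (fun w : {w : InfinitePlace K // IsReal w} =>
          (sc K t w.1 • (LinearMap.id : ℝ →ₗ[ℝ] ℝ)).comp (LinearMap.proj w)))
        (LinearMap.pi (fun w : {w : InfinitePlace K // IsComplex w} =>
          (sc K t w.1 • (LinearMap.id : ℂ →ₗ[ℝ] ℂ)).comp (LinearMap.proj w))) := by
    refine LinearMap.ext fun x => Prod.ext ?_ ?_
    · funext w
      show (sg K t * x).1 w = sc K t w.1 • x.1 w
      unfold sg
      rw [mixedSpaceOfRealSpace_apply]
      rfl
    · funext w
      show (sg K t * x).2 w = sc K t w.1 • x.2 w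
      unfold sg
      rw [mixedSpaceOfRealSpace_apply, Complex.real_smul]
      rfl
  rw [h1, LinearMap.det_prodMap, LinearMap.det_pi, LinearMap.det_pi]
  simp only [LinearMap.det_smul, LinearMap.det_id, mul_one, Module.finrank_self, pow_one,
    Complex.finrank_real_complex]
  have h2 := norm_sg K t
  rw [mixedEmbedding.norm_apply, prod_eq_prod_mul_prod] at h2
  simp only [normAtPlace_sg, mult_isReal, mult_isComplex, pow_one] at h2
  exact h2

open scoped Classical in
theorem volume_image (t : logSpace K) (s : Set (mixedSpace K)) :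
    MeasureTheory.volume ((mulSg K t) '' s) = MeasureTheory.volume s := by
  have := MeasureTheory.Measure.addHaar_image_linearMap (MeasureTheory.volume)
    (mulSg K t : mixedSpace K →ₗ[ℝ] mixedSpace K) s
  rw [det_mulSg, abs_one, ENNReal.ofReal_one, one_mul] at this
  exact this

end LatBasis

open LatBasis

open scoped Classical in
theorem lat_basis (m : ℕ) (K : Type) [Field K] [NumberField K] (hK : Module.finrank ℚ K = m)
    (J : (Ideal (𝓞 K))⁰) (t : logSpace K) :
    ∃ B : Module.Basis (Fin m) ℝ (euclidean.mixedSpace K),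
      (∀ v : euclidean.mixedSpace K, v ∈ Submodule.span ℤ (Set.range B) ↔
        ∃ x : 𝓞 K, x ∈ (J : Ideal (𝓞 K)) ∧
          v = (euclidean.toMixed K).symm (sg K t * mixedEmbedding K (x : K))) ∧
      cov B = (1 / 2) ^ nrComplexPlaces K * Real.sqrt (DK K) * nm K J := by
  set I : (FractionalIdeal (𝓞 K)⁰ K)ˣ := FractionalIdeal.mk0 K J with hI
  set b := fractionalIdealLatticeBasis K I with hb
  have hcard : Fintype.card (Module.Free.ChooseBasisIndex ℤ I) = m := by
    rw [← Module.finrank_eq_card_chooseBasisIndex, fractionalIdeal_rank, RingOfIntegers.rank, hK]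
  set e : Module.Free.ChooseBasisIndex ℤ I ≃ Fin m := Fintype.equivFinOfCardEq hcard with he
  set Λ : mixedSpace K ≃ₗ[ℝ] euclidean.mixedSpace K :=
    (mulSg K t).trans (euclidean.toMixed K).symm.toLinearEquiv with hΛ
  refine ⟨(b.map Λ).reindex e, fun v => ?_, ?_⟩
  · rw [Module.Basis.range_reindex]
    have hr : Set.range (b.map Λ) = (Λ.toLinearMap.restrictScalars ℤ) '' (Set.range b) := by
      rw [← Set.range_comp]
      congr 1
    rw [hr, ← Submodule.map_span]
    constructor
    · rintro ⟨y, hy, rfl⟩
      have hy' : y ∈ Submodule.span ℤ (Set.range b) := hy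
      rw [mem_span_fractionalIdealLatticeBasis] at hy'
      obtain ⟨x, hx, rfl⟩ := hy'
      have hx' : x ∈ (I : FractionalIdeal (𝓞 K)⁰ K) := hx
      rw [hI, FractionalIdeal.coe_mk0, FractionalIdeal.mem_coeIdeal] at hx'
      obtain ⟨z, hz, rfl⟩ := hx'
      exact ⟨z, hz, rfl⟩
    · rintro ⟨x, hx, rfl⟩
      refine ⟨mixedEmbedding K (x : K), ?_, rfl⟩
      show mixedEmbedding K (x : K) ∈ Submodule.span ℤ (Set.range b)
      rw [mem_span_fractionalIdealLatticeBasis]
      refine ⟨(x : K), ?_, rfl⟩
      show (x : K) ∈ (I : FractionalIdeal (𝓞 K)⁰ K)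
      rw [hI, FractionalIdeal.coe_mk0, FractionalIdeal.mem_coeIdeal]
      exact ⟨x, hx, rfl⟩
  · unfold cov
    rw [ZSpan.fundamentalDomain_reindex, ← ZSpan.map_fundamentalDomain]
    have h1 : Λ '' (ZSpan.fundamentalDomain b) =
        (euclidean.toMixed K) ⁻¹' ((mulSg K t) '' (ZSpan.fundamentalDomain b)) := by
      ext v
      constructor
      · rintro ⟨x, hx, rfl⟩
        refine ⟨x, hx, ?_⟩
        show (mulSg K t) x = (euclidean.toMixed K) ((euclidean.toMixed K).symm ((mulSg K t) x))
        rw [ContinuousLinearEquiv.apply_symm_apply]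
      · rintro ⟨x, hx, hv⟩
        refine ⟨x, hx, ?_⟩
        show (euclidean.toMixed K).symm ((mulSg K t) x) = v
        rw [hv, ContinuousLinearEquiv.symm_apply_apply]
    have h2 : MeasureTheory.volume (Λ '' (ZSpan.fundamentalDomain b)) =
        MeasureTheory.volume (ZSpan.fundamentalDomain b) := by
      have h3 : MeasureTheory.MeasurePreserving
          (euclidean.toMixed K).toHomeomorph.toMeasurableEquiv := euclidean.volumePreserving_toMixed K
      rw [h1, ← volume_image K t]
      exact h3.measure_preimage_equiv _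
    rw [h2, volume_fundamentalDomain_fractionalIdealLatticeBasis,
      volume_fundamentalDomain_latticeBasis, ENNReal.toReal_mul, ENNReal.toReal_mul,
      ENNReal.toReal_pow, ENNReal.toReal_inv, ENNReal.toReal_ofNat, ENNReal.coe_toReal,
      Real.coe_sqrt, coe_nnnorm, Int.norm_eq_abs,
      ENNReal.toReal_ofReal (Rat.cast_nonneg.mpr (FractionalIdeal.absNorm_nonneg I.val))]
    rw [hI, FractionalIdeal.coe_mk0, FractionalIdeal.coeIdeal_absNorm, Rat.cast_natCast]
    unfold DK nm
    rw [← Int.cast_abs]
    ring

end Pool.HDZ
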