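import Pool.Agent.HDZ.Defs
import Pool.Agent.ZD.Unfold

/-!
# Module UNFOLDNEG: unfolding with `-t`

PAPER PROOF. Let `F (t) = ∑' x : NZ K J, Gf (sg K t * x)` (`Measurable.tsum`: `NZ K J` is countable). `F` is invariant
under translation by the unit lattice: `F (ℓ + t) = F t` for `ℓ = logEmbedding u`: `sg (ℓ + t) * x` has at every
place the same absolute value as `sg t * (u x)` (`sg_add`/`sc_add`, `sc_logEmbedding`), and `x ↦ u x` is a
permutation of `NZ K J`. By Tonelli the left side is `∫⁻ t in FD K, F (-t) = ∫⁻ t in -FD K, F t`. Both `FD K` and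
`-FD K` are fundamental domains of the unit lattice, so the integrals of the invariant function `F` over them
agree (`IsAddFundamentalDomain.setLIntegral_eq`; `-FD K` is a fundamental domain by
`IsAddFundamentalDomain` under the automorphism `-1`, or check the axioms directly), and
`∫⁻ t in FD K, F t` is the left side of `Pool.ZD.unfold`.
Alternatively repeat the proof of `Pool.ZD.unfold` with `-FD K`.
-/

open scoped NumberField nonZeroDivisors ENNReal
open NumberField NumberField.InfinitePlace NumberField.mixedEmbedding NumberField.Units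
  NumberField.Units.dirichletUnitTheorem MeasureTheory Pool.ZD

namespace Pool.HDZ

namespace UnfoldNegAux

variable (K : Type) [Field K] [NumberField K] (J : (Ideal (𝓞 K))⁰)

/-- Multiplication by a unit permutes the nonzero elements of an ideal. -/
noncomputable def mulUnit (u : (𝓞 K)ˣ) : NZ K J ≃ NZ K J where
  toFun x := ⟨(u : 𝓞 K) * x.1, (J : Ideal (𝓞 K)).mul_mem_left _ x.2.1,
    mul_ne_zero (Units.ne_zero u) x.2.2⟩
  invFun x := ⟨((u⁻¹ : (𝓞 K)ˣ) : 𝓞 K) * x.1, (J : Ideal (𝓞 K)).mul_mem_left _ x.2.1,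
    mul_ne_zero (Units.ne_zero u⁻¹) x.2.2⟩
  left_inv x := by
    apply Subtype.ext
    simp
  right_inv x := by
    apply Subtype.ext
    simp

/-- The unfolded function. -/
noncomputable def FF (Gf : mixedSpace K → ℝ≥0∞) (t : logSpace K) : ℝ≥0∞ :=
  ∑' x : NZ K J, Gf (sg K t * mixedEmbedding K ((x : 𝓞 K) : K))

theorem FF_inv (Gf : mixedSpace K → ℝ≥0∞)
    (hGn : ∀ x y : mixedSpace K, (∀ w, normAtPlace w x = normAtPlace w y) → Gf x = Gf y)
    (ℓ : unitLattice K) (t : logSpace K) : FF K J Gf (ℓ +ᵥ t) = FF K J Gf t := by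
  unfold FF
  rw [← (mulUnit K J (UnfoldAux.uu K ℓ)).tsum_eq
    (fun x : NZ K J => Gf (sg K t * mixedEmbedding K ((x : 𝓞 K) : K)))]
  apply tsum_congr
  intro x
  apply hGn
  intro w
  have h2 : ℓ +ᵥ t = (ℓ : logSpace K) + t := rfl
  have h3 : mixedEmbedding K ((((mulUnit K J (UnfoldAux.uu K ℓ) x : NZ K J) : 𝓞 K)) : K) =
      mixedEmbedding K ((UnfoldAux.uu K ℓ : 𝓞 K) : K) * mixedEmbedding K ((x : 𝓞 K) : K) := by
    rw [← map_mul]
    rfl
  rw [h2, h3, normAtPlace_sg_mul, normAtPlace_sg_mul, sc_add, map_mul,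
    ← UnfoldAux.log_uu K ℓ, sc_logEmbedding]
  simp only [normAtPlace_apply]
  ring

end UnfoldNegAux

open UnfoldNegAux

open scoped Classical in
theorem unfold_neg (K : Type) [Field K] [NumberField K] (J : (Ideal (𝓞 K))⁰)
    (Gf : mixedSpace K → ℝ≥0∞) (hG : Measurable Gf)
    (hGn : ∀ x y : mixedSpace K, (∀ w, normAtPlace w x = normAtPlace w y) → Gf x = Gf y) :
    ∑' x : NZ K J, ∫⁻ t in FD K, Gf (sg K (-t) * mixedEmbedding K ((x : 𝓞 K) : K)) =
      ∑' x : fundamentalCone.idealSet K J, ∫⁻ t : logSpace K, Gf (sg K t * (x : mixedSpace K)) := by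
  rw [← Pool.ZD.unfold K J Gf hG hGn]
  have hfd : IsAddFundamentalDomain (unitLattice K) (FD K) (volume : Measure (logSpace K)) :=
    ZLattice.isAddFundamentalDomain (basisUnitLattice K) volume
  have hinv : VAddInvariantMeasure (unitLattice K) (logSpace K) volume :=
    ⟨fun c s _ => measure_preimage_add volume (c : logSpace K) s⟩
  have hneg : MeasurePreserving (Neg.neg : logSpace K → logSpace K) volume volume :=
    Measure.measurePreserving_neg volume
  have hfd' : IsAddFundamentalDomain (unitLattice K) (Neg.neg ⁻¹' (FD K))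
      (volume : Measure (logSpace K)) := by
    apply hfd.preimage_of_equiv hneg.quasiMeasurePreserving (e := Neg.neg) neg_involutive.bijective
    intro g x
    change -((-(g : logSpace K)) + x) = (g : logSpace K) + -x
    rw [neg_add, neg_neg]
  have hmsg : ∀ x : NZ K J, Measurable fun t : logSpace K =>
      Gf (sg K t * mixedEmbedding K ((x : 𝓞 K) : K)) := by
    intro x
    exact hG.comp ((continuous_sg K).mul continuous_const).measurable
  have hcount : Countable (NZ K J) := by
    have : Countable (𝓞 K) :=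
      (NumberField.RingOfIntegers.basis K).equivFun.injective.countable
    infer_instance
  have h1 : ∑' x : NZ K J, ∫⁻ t in FD K, Gf (sg K (-t) * mixedEmbedding K ((x : 𝓞 K) : K)) =
      ∫⁻ t in FD K, FF K J Gf (-t) := by
    unfold FF
    rw [lintegral_tsum]
    intro x
    exact ((hmsg x).comp measurable_neg).aemeasurable
  have h2 : ∑' x : NZ K J, ∫⁻ t in FD K, Gf (sg K t * mixedEmbedding K ((x : 𝓞 K) : K)) =
      ∫⁻ t in FD K, FF K J Gf t := by
    unfold FF
    rw [lintegral_tsum]
    intro x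
    exact (hmsg x).aemeasurable
  rw [h1, h2]
  have h3 : ∫⁻ t in FD K, FF K J Gf (-t) = ∫⁻ t in Neg.neg ⁻¹' (FD K), FF K J Gf t := by
    have h4 := hneg.setLIntegral_comp_preimage_emb (MeasurableEquiv.neg (logSpace K)).measurableEmbedding
      (FF K J Gf) (Neg.neg ⁻¹' (FD K))
    rw [← h4]
    congr 2
    ext x
    simp
  rw [h3]
  exact hfd'.setLIntegral_eq hfd (FF K J Gf) (fun g x => FF_inv K J Gf hGn g x)

end Pool.HDZ
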