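import Pool.Agent.ZD.Scale

/-!
# Carlson type zero density for class group L-functions of number fields: common definitions

Notation and facts of `Pool/Agent/ZD` (`sc`, `sg`, `en`, `FD`, `NZ`, `Cls`, `nm`, `rho`) are reused.
-/

open scoped NumberField nonZeroDivisors
open NumberField NumberField.InfinitePlace NumberField.mixedEmbedding NumberField.Units
  NumberField.Units.dirichletUnitTheorem

namespace Pool.HDZ

noncomputable section

/-- Smooth test functions with values in `V`, supported in `[1,16]`, derivatives up to order `k`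
bounded by `G`. -/
def NiceS {V : Type} [NormedAddCommGroup V] [NormedSpace ℝ V] (k : ℕ) (G : ℝ) (g : ℝ → V) : Prop :=
  ContDiff ℝ k g ∧ (∀ j ≤ k, ∀ u, ‖iteratedFDeriv ℝ j g u‖ ≤ G) ∧ ∀ u, (u ≤ 1 ∨ 16 ≤ u) → g u = 0

/-- Smooth test functions supported in the smaller interval `[3/2,10]`. -/
def NiceI {V : Type} [NormedAddCommGroup V] [NormedSpace ℝ V] (k : ℕ) (G : ℝ) (g : ℝ → V) : Prop :=
  ContDiff ℝ k g ∧ (∀ j ≤ k, ∀ u, ‖iteratedFDeriv ℝ j g u‖ ≤ G) ∧ ∀ u, (u ≤ 3 / 2 ∨ 10 ≤ u) → g u = 0

/-- Smooth functions on a Euclidean space supported in the ball of radius `S`, vanishing at the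
origin, derivatives up to order `k` bounded by `G`. -/
def Good {E : Type} [NormedAddCommGroup E] [NormedSpace ℝ E] (k : ℕ) (S G : ℝ) (f : E → ℝ) : Prop :=
  ContDiff ℝ k f ∧ (∀ j ≤ k, ∀ x, ‖iteratedFDeriv ℝ j f x‖ ≤ G) ∧ (∀ x, S ≤ ‖x‖ → f x = 0) ∧ f 0 = 0

/-- A smooth bump function, positive exactly on `(1,4)`. -/
def psiS (v : ℝ) : ℝ := Real.smoothTransition (v - 1) * Real.smoothTransition (4 - v)

open Classical in
/-- The smooth test function on the mixed space attached to `g`. -/
def PhiS (K : Type) [Field K] [NumberField K] (g : ℝ → ℝ) (x : mixedSpace K) : ℝ :=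
  g (mixedEmbedding.norm x ^ 2) *
    ∏ w : {w : InfinitePlace K // w ≠ w₀}, psiS (normAtPlace w.1 x ^ 2)

/-- The covolume of the lattice spanned by a basis. -/
def cov {E : Type} [NormedAddCommGroup E] [InnerProductSpace ℝ E] [MeasurableSpace E]
    [BorelSpace E] [FiniteDimensional ℝ E] {m : ℕ} (B : Module.Basis (Fin m) ℝ E) : ℝ :=
  (MeasureTheory.volume (ZSpan.fundamentalDomain B)).toReal

/-- The decay function of the dual side. -/
def hh (m : ℕ) (u : ℝ) : ℝ := min (u⁻¹ ^ (m - 1)) (u⁻¹ ^ (m + 1))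

/-- The absolute value of the discriminant. -/
def DK (K : Type) [Field K] [NumberField K] : ℝ := |(discr K : ℝ)|

/-- Regulator divided by the number of roots of unity. -/
def RK (K : Type) [Field K] [NumberField K] : ℝ := regulator K / torsionOrder K

/-- The cut-off function of `v = u ^ 2`: `1` for `v ≤ 3/2`, `0` for `v ≥ 5/2`. -/
def SS (v : ℝ) : ℝ := Real.smoothTransition (5 / 2 - v)

end

end Pool.HDZ
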